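import Pool.Agent.H33.VW.Boxf
import Pool.Agent.H64.D1.S

/-!
# The box of two followers of one slope over one slope-one place

`boxD_of`: `BoxD` from `FBox`. Inputs in a subclass. `affD_of`: affine labels at all windows of a record.
-/

set_option autoImplicit false

namespace Pool.D164

open Finset Real MvPolynomial
open Pool.Agent.H49.Ent Pool.Agent.H32.Dense
open Pool.STK hiding pr2
open Pool.KA Pool.KSAT Pool.K2S Pool.PB Pool.S6C
open Pool.GEN Pool.CHT Pool.CHX Pool.LA91 Pool.RCD Pool.AVG96 Pool.OWN68 Pool.V0F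
open Pool.CDX (AffL AfG)
open Pool.V0R (LadR)
open Pool.VW33 (FBox)

variable {m : ℕ} {S S' : PCl m}

/-- **The box of the numbers** from the box of the followers and the labels. -/
theorem boxD_of {c : ℕ → Fin m} {D : ℕ} {sn sp : ℕ → ℝ → ℝ} {G : Set ℝ}
    {s σ h b o w u Λ φ e : ℝ} {lam : ℝ → ℝ}
    (B : FBox S c 1 2 sn sp G s σ h b o w u Λ φ e lam)
    (hgd : ∀ (τ : ℝ) (J : ℕ) (F : Fam m J) (A : F.Ω → Prop), S.St τ J F A → Gd F)
    (hlab : ∀ v ∈ G, b ≤ v → v ≤ o → ∃ (E rd : ℕ → ℝ) (ρ : ℝ), ρ < 1 ∧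
      (∀ l ≤ 3, 0 ≤ E l ∧ sn l v + E l + Λ * u ≤ 1 ∧ 0 ≤ rd l ∧ rd l ≤ ρ) ∧ ∀ e : ℝ, 0 < e →
      Bas S (fun J F A => ∃ (V : Type) (z : PtT F → V) (z' : LnT F → V)
        (g : V → ℕ → MvPolynomial (Option (Fin m)) ℝ),
        LbE F c 4 D E e v rd (fun l => sn l v) A z z' g)) :
    BoxD S c D sn G s σ h b o w u Λ φ where
  lad := B.lad
  img := B.img
  gd := hgd
  u0 := B.u0
  wG := B.wG
  bw := B.bw
  wo := B.wo
  o1 := B.o1
  b0 := B.b0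
  room := B.room
  lin := fun l h1 h2 => B.lin0 l h1 (by omega)
  lint := B.lin1
  row := B.row
  lab := hlab

/-! ### Subclasses -/

/-- The ladder in a subclass. -/
theorem ladR_sub (hs : ∀ (τ : ℝ) (J : ℕ) (F : Fam m J) (A : F.Ω → Prop),
    S'.St τ J F A → S.St τ J F A) {c : ℕ → Fin m} {k f : ℕ} {sn : ℕ → ℝ → ℝ} {G : Set ℝ}
    {b o φ : ℝ} (h : LadR S c k f sn G b o φ) : LadR S' c k f sn G b o φ where
  tm := by
    obtain ⟨C₀, h1⟩ := h.tm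
    exact ⟨C₀, fun τ J F A a b => h1 τ J F A a (hs τ J F A b)⟩
  pos := fun τ J F A a => h.pos τ J F A (hs τ J F A a)
  inj := h.inj
  ch := h.ch.sub hs
  att := fun w hw => by
    obtain ⟨rk, E, h1, h2, h3, h4, h5⟩ := h.att w hw
    refine ⟨rk, E, h1, h2, h3, h4, fun e he => ?_⟩
    obtain ⟨K, h6⟩ := h5 e he
    exact ⟨K, h6.sub hs⟩
  bG := h.bG
  oG := h.oG
  b0 := h.b0
  bo := h.bo
  o1 := h.o1
  φ0 := h.φ0
  fm := h.fm
  fl := h.fl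
  st := h.st
  eq := h.eq

/-- **The box in a subclass.** -/
theorem boxD_sub (hs : ∀ (τ : ℝ) (J : ℕ) (F : Fam m J) (A : F.Ω → Prop),
    S'.St τ J F A → S.St τ J F A) {c : ℕ → Fin m} {D : ℕ} {sn : ℕ → ℝ → ℝ} {G : Set ℝ}
    {s σ hr b o w u Λ φ : ℝ} (h : BoxD S c D sn G s σ hr b o w u Λ φ) :
    BoxD S' c D sn G s σ hr b o w u Λ φ where
  lad := ladR_sub hs h.lad
  img := h.img
  gd := fun τ J F A a => h.gd τ J F A (hs τ J F A a)
  u0 := h.u0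
  wG := h.wG
  bw := h.bw
  wo := h.wo
  o1 := h.o1
  b0 := h.b0
  room := h.room
  lin := h.lin
  lint := h.lint
  row := fun P₁ P₂ h1 h2 h3 x hx hx' => (h.row P₁ P₂ h1 h2 h3 x hx hx').sub hs
  lab := fun v hv h1 h2 => by
    obtain ⟨E, rd, ρ, h3, h4, h5⟩ := h.lab v hv h1 h2
    exact ⟨E, rd, ρ, h3, h4, fun e he => (h5 e he).sub hs⟩

/-- **A smaller room.** -/
theorem boxD_mono {c : ℕ → Fin m} {D : ℕ} {sn : ℕ → ℝ → ℝ} {G : Set ℝ}
    {s σ hr b o w u Λ Λ' φ : ℝ} (h : BoxD S c D sn G s σ hr b o w u Λ φ) (hΛ : Λ' ≤ Λ) :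
    BoxD S c D sn G s σ hr b o w u Λ' φ := by
  have hΛu : Λ' * u ≤ Λ * u := mul_le_mul_of_nonneg_right hΛ h.u0.le
  exact {
    lad := h.lad
    img := h.img
    gd := h.gd
    u0 := h.u0
    wG := h.wG
    bw := by linarith [h.bw]
    wo := by linarith [h.wo]
    o1 := by linarith [h.o1]
    b0 := by linarith [h.b0]
    room := fun l hl => ⟨by linarith [(h.room l hl).1], by linarith [(h.room l hl).2]⟩
    lin := h.lin
    lint := h.lint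
    row := fun P₁ P₂ h1 h2 h3 => h.row P₁ P₂ (by linarith) (by linarith) h3
    lab := fun v hv h1 h2 => by
      obtain ⟨E, rd, ρ, h3, h4, h5⟩ := h.lab v hv h1 h2
      exact ⟨E, rd, ρ, h3, fun l hl => ⟨(h4 l hl).1, by linarith [(h4 l hl).2.1], (h4 l hl).2.2⟩,
        h5⟩ }

theorem affD_sub (hs : ∀ (τ : ℝ) (J : ℕ) (F : Fam m J) (A : F.Ω → Prop),
    S'.St τ J F A → S.St τ J F A) {c : ℕ → Fin m} {sn : ℕ → ℝ → ℝ} {w φ : ℝ} {bl pl : ℕ → ℝ}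
    (h : AffD S c sn w φ bl pl) : AffD S' c sn w φ bl pl :=
  fun l hl => ⟨(h l hl).1, (h l hl).2.1, (h l hl).2.2.sub hs⟩

/-- A larger error. -/
theorem affD_le {c : ℕ → Fin m} {sn : ℕ → ℝ → ℝ} {w φ φ' : ℝ} {bl pl : ℕ → ℝ}
    (h : AffD S c sn w φ bl pl) (hφ : φ ≤ φ') : AffD S c sn w φ' bl pl :=
  fun l hl => ⟨(h l hl).1, by linarith [(h l hl).2.1], (h l hl).2.2⟩

/-- Closed affine labels of the target in a subclass. -/
theorem afK_sub (hs : ∀ (τ : ℝ) (J : ℕ) (F : Fam m J) (A : F.Ω → Prop),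
    S'.St τ J F A → S.St τ J F A) {c : ℕ → Fin m} {n : ℕ} {v pv : ℕ → ℝ}
    (h : AfK S c n v pv) : AfK S' c n v pv := fun e₀ he₀ => by
  obtain ⟨c₀, h1, h2⟩ := h e₀ he₀
  exact ⟨c₀, h1, h2.sub hs⟩

/-! ### Affine labels at all windows -/

/-- **Affine labels of the followers at all windows of a record.** -/
theorem affD_of {S : PCl 4} {c : ℕ → Fin 4} {L : ℕ → ℝ → ℝ → ℝ} {G : Set ℝ} {g : ℝ}
    (ha1 : AfG S c (fun w l => L l w w) G g 1) (ha2 : AfG S c (fun w l => L l w w) G g 2)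
    {η R₀ : ℝ} (hη : 0 < η) (hR : 0 < R₀) : ∃ q₁ : ℝ, 0 < q₁ ∧ ∀ q : ℝ, 0 < q → q < q₁ →
      ∀ v ∈ G, |v - g| ≤ R₀ * q → ∃ bl pl : ℕ → ℝ, AffD S c (fun l v => L l v v) v (η * q) bl pl := by
  obtain ⟨ρ₁, hρ₁, h1⟩ := ha1 (η / R₀) (by positivity)
  obtain ⟨ρ₂, hρ₂, h2⟩ := ha2 (η / R₀) (by positivity)
  refine ⟨min ρ₁ ρ₂ / R₀, by positivity, fun q hq hq1 v hv hvg => ?_⟩
  rw [lt_div_iff₀ hR] at hq1
  have hRq : 0 < R₀ * q := by positivity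
  have e1 : η / R₀ * (R₀ * q) = η * q := by field_simp
  have hvg' := abs_le.1 hvg
  obtain ⟨b₁, p₁, c1, c2, c3⟩ := h1 (R₀ * q) hRq (by linarith [min_le_left ρ₁ ρ₂]) v hv
    (by linarith) (by linarith)
  obtain ⟨b₂, p₂, c4, c5, c6⟩ := h2 (R₀ * q) hRq (by linarith [min_le_right ρ₁ ρ₂]) v hv
    (by linarith) (by linarith)
  rw [e1] at c2 c5
  refine ⟨fun l => if l = 0 then b₁ else b₂, fun l => if l = 0 then p₁ else p₂, fun l hl => ?_⟩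
  obtain rfl | rfl : l = 0 ∨ l = 1 := by omega
  · exact ⟨c1, c2, c3⟩
  · exact ⟨c4, c5, c6⟩

end Pool.D164
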