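import Pool.Agent.H64.D1R.Bx
import Pool.Agent.H64.D1.Fin
import Pool.Agent.H62.T4.NumD

/-!
# Few velocities in a box with all inputs

`few_cls`: in a subclass, on a sub-box, the numbers of the velocities of the followers and one small
number.
-/

set_option autoImplicit false

namespace Pool.D164

open Finset Real MvPolynomial
open Pool.Agent.H49.Ent Pool.Agent.H32.Dense
open Pool.STK hiding pr2
open Pool.KA Pool.KSAT Pool.K2S Pool.PB Pool.S6C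
open Pool.GEN Pool.CHT Pool.CHX Pool.LA91 Pool.RCD Pool.AVG96 Pool.OWN68 Pool.V0F
open Pool.CDX (AffL)
open Pool.IMN17 (ImK)

/-- The images in a subclass. -/
theorem imK_sub {m : ℕ} {S S' : PCl m} (hs : ∀ (τ : ℝ) (J : ℕ) (F : Fam m J) (A : F.Ω → Prop),
    S'.St τ J F A → S.St τ J F A) {c : ℕ → Fin m} {k i : ℕ} {lv pv : ℕ → ℝ} {v x κ κ' : ℝ}
    (h : ImK S c k i lv pv v x κ κ') : ImK S' c k i lv pv v x κ κ' :=
  ⟨h.one.sub hs, h.two.sub hs⟩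

/-- **Few velocities** on a sub-box, in a subclass. `T`: the depth of the far path in units `q`; `ΛA`,
`eA`: the range and the error of the affine labels of the target and of the images; `ς₁`: the margin of
the digits; `Λ`, `e`: the room and the errors of the box. -/
theorem few_cls (C s σ hr δ' : ℝ) (hC : 1 ≤ C) (hs : 1 < s) (hsσ : s < σ) (h0 : 0 < hr)
    (h1 : hr ≤ 1) (hδ : 0 < δ') :
    ∃ (L i₁ j₁ n : ℕ) (κ₀ T₁ : ℝ), i₁ < j₁ ∧ j₁ ≤ L ∧ 1 ≤ n ∧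
      2 ≤ (s - 1) * ((j₁ : ℝ) - i₁) ∧ 0 < κ₀ ∧ s + 3 ≤ T₁ ∧
    ∀ T : ℝ, T₁ ≤ T → ∃ ς₀ ΛA eA : ℝ, 0 < ς₀ ∧ 1 ≤ ΛA ∧ 0 < eA ∧
    ∀ ς₁ : ℝ, 0 < ς₁ → ς₁ ≤ ς₀ → ∃ Λ e : ℝ, ΛA ≤ Λ ∧ 0 < e ∧ e ≤ eA ∧
    ∀ {m D : ℕ} {S : PCl m} {c : ℕ → Fin m} {sn : ℕ → ℝ → ℝ} {G : Set ℝ}
      {b o t q φ' M : ℝ} {bl pl : ℕ → ℝ},
      S.Ne → (∀ (τ : ℝ) (J : ℕ) (F : Fam m J) (A : F.Ω → Prop), S.St τ J F A → 0 < Pe F.p A) →
      Bas S (fun J F A => (cnt F.p (ptr F J) A : ℝ) ≤ Real.exp (M * J)) →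
      BoxD S c D sn G s σ hr b o t q Λ φ' → φ' ≤ e * q →
      (∀ v ∈ G, t ≤ v → v ≤ t + Λ * q → |sn 0 v - v| ≤ e * q) →
      (∀ l < 3, t ≤ sn (1 + l) t + e * q) →
      AffD S c sn t (e * q) bl pl →
      (∀ v ∈ G, t ≤ v → v ≤ t + Λ * q → ∃ bl' pl' : ℕ → ℝ, AffD S c sn v (e * q) bl' pl') →
      (∀ (n : ℕ) (vs : ℕ → ℝ), vs 0 = t → (∀ k ≤ n, vs k ∈ G ∧ t ≤ vs k ∧ vs k ≤ t + ΛA * q) →
        AfK S c n vs (fun k => sn 3 (vs k) - eA * q)) →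
      (∀ v ∈ G, t ≤ v → v ≤ t + ΛA * q → ∀ κ : ℝ, eA * q ≤ κ → κ ≤ q →
        ImK S c 1 3 (fun l => sn (1 + l) v) (fun l => 1 - ΛA * q - sn (1 + l) v) v (1 - ΛA * q) κ
          (C * κ)) →
      (∀ i ≤ L ^ n, t + (i / (L : ℝ) ^ n) * q ∈ G) →
      ∃ S' : PCl m, S'.Ne ∧
      (∀ (τ : ℝ) (J : ℕ) (F : Fam m J) (A : F.Ω → Prop), S'.St τ J F A → S.St τ J F A) ∧
      ∃ (N : ℕ → ℕ → ℝ) (k p : ℕ), 1 ≤ k ∧ k ≤ n ∧ L ∣ p ∧ p + L ≤ L ^ k ∧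
        (∀ i ≤ L, t + (p / (L : ℝ) ^ k) * q + i * (q / (L : ℝ) ^ k) ∈ G) ∧
        NumD S' c sn bl pl (sn 0 t + T * q) (sn 0 t - t + T * q) (ς₁ * q) (2 * s * Real.log 2)
          (κ₀ * (q / (L : ℝ) ^ k)) L
          (fun i => t + (p / (L : ℝ) ^ k) * q + i * (q / (L : ℝ) ^ k)) N ∧
        N i₁ j₁ ≤ δ' * (q / (L : ℝ) ^ k) := by
  obtain ⟨L, i₁, j₁, κ₀, T₀, hij, hj, hs2, hκ₀, hCl⟩ := d1Cls C s σ hr δ' hC hs hsσ h0 h1 hδ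
  have hL : 1 ≤ L := by omega
  obtain ⟨n, hn, hNum⟩ := Pool.T462.numD_T s hs L hL κ₀ hκ₀
  have hL1 : (1 : ℝ) ≤ L := by exact_mod_cast hL
  have hL0 : (0 : ℝ) < L := by linarith
  obtain ⟨A, hA⟩ : ∃ A : ℝ, A = (L : ℝ) ^ n := ⟨_, rfl⟩
  have hA1 : 1 ≤ A := by rw [hA]; exact one_le_pow₀ hL1
  refine ⟨L, i₁, j₁, n, κ₀, max T₀ (s + 3), hij, hj, hn, hs2, hκ₀, le_max_right _ _,
    fun T hT => ?_⟩
  obtain ⟨ΛC, eC, hΛC, heC, hCl⟩ := hCl T A ((le_max_left _ _).trans hT) hA1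
  refine ⟨min eC 1, ΛC, eC, lt_min heC one_pos, hΛC, heC, fun ς₁ hς0 hς1 => ?_⟩
  have hςC : ς₁ ≤ eC := hς1.trans (min_le_left _ _)
  obtain ⟨Λn, en, hΛn, hen, hNum⟩ := hNum T ς₁ ((le_max_right _ _).trans hT) hς0
    (hς1.trans (min_le_right _ _))
  refine ⟨max ΛC Λn, min eC en, le_max_left _ _, lt_min heC hen, min_le_left _ _, ?_⟩
  obtain ⟨Λ, hΛe⟩ : ∃ Λ, Λ = max ΛC Λn := ⟨_, rfl⟩
  obtain ⟨e, hee⟩ : ∃ e, e = min eC en := ⟨_, rfl⟩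
  rw [← hΛe, ← hee]
  have g1 : ΛC ≤ Λ := by rw [hΛe]; exact le_max_left _ _
  have g2 : Λn ≤ Λ := by rw [hΛe]; exact le_max_right _ _
  have g3 : e ≤ eC := by rw [hee]; exact min_le_left _ _
  have g4 : e ≤ en := by rw [hee]; exact min_le_right _ _
  intro m D S c sn G b o t q φ' M bl pl hS hpos hM Bx hφ' hsn hnat hAt hAll hAf hIm hG
  have hq := Bx.u0
  have e1 : e * q ≤ eC * q := mul_le_mul_of_nonneg_right g3 hq.le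
  have e2 : e * q ≤ en * q := mul_le_mul_of_nonneg_right g4 hq.le
  have hΛCq : ΛC * q ≤ Λ * q := mul_le_mul_of_nonneg_right g1 hq.le
  have hΛq : q ≤ Λ * q := le_mul_of_one_le_left hq.le (hΛC.trans g1)
  obtain ⟨S', hne, hsub, N, k, p, hk1, hkn, hpd, hpL, hgr, hNV⟩ := hNum (P := sn 0 t + T * q)
    (lam := sn 0 t - t + T * q) hS hM (boxD_mono Bx g2) (hφ'.trans e2) (affD_le hAt e2)
    (fun v hv h2 h3 => by
      obtain ⟨bl', pl', h4⟩ := hAll v hv h2 (by linarith)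
      exact ⟨bl', pl', affD_le h4 e2⟩) hG le_rfl le_rfl
  refine ⟨S', hne, hsub, N, k, p, hk1, hkn, hpd, hpL, hgr, hNV, ?_⟩
  obtain ⟨B, hB⟩ : ∃ B : ℝ, B = (L : ℝ) ^ k := ⟨_, rfl⟩
  have hB1 : 1 ≤ B := by rw [hB]; exact one_le_pow₀ hL1
  have hB0 : 0 < B := by linarith
  have hBA : B ≤ A := by rw [hB, hA]; exact pow_le_pow_right₀ hL1 hkn
  rw [← hB] at hgr hNV ⊢
  obtain ⟨ρ, hρ⟩ : ∃ ρ, ρ = q / B := ⟨_, rfl⟩
  have hρ0 : 0 < ρ := by rw [hρ]; positivity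
  have hqB : q = B * ρ := by rw [hρ]; field_simp
  rw [← hρ] at hgr hNV ⊢
  have hp0 : (0 : ℝ) ≤ p := Nat.cast_nonneg p
  have hpos' : ∀ (τ : ℝ) (J : ℕ) (F : Fam m J) (A : F.Ω → Prop), S'.St τ J F A → 0 < Pe F.p A :=
    fun τ J F A h => hpos τ J F A (hsub τ J F A h)
  refine hCl (φ' := φ') (ς := ς₁ * q) hne hpos' (boxD_mono (boxD_sub hsub Bx) g1) (hφ'.trans e1)
    (mul_pos hς0 hq) (mul_le_mul_of_nonneg_right hςC hq.le)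
    (fun v hv h2 h3 => (hsn v hv h2 (by linarith)).trans e1)
    (fun l hl => by linarith [hnat l hl]) (affD_le (affD_sub hsub hAt) e1)
    (fun v hv h2 h3 => by
      obtain ⟨bl', pl', h4⟩ := hAll v hv h2 (by linarith)
      exact ⟨bl', pl', affD_le (affD_sub hsub h4) e1⟩)
    (fun n' vs hv0 hvs => afK_sub hsub (hAf n' vs hv0 hvs))
    (fun v hv h2 h3 κ h4 h5 => imK_sub hsub (hIm v hv h2 h3 κ h4 h5))
    hgr ?_ hρ0 ?_ ?_ hNV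
  · have : 0 ≤ (p : ℝ) / B * q := by positivity
    linarith
  · have h2 : (p : ℝ) + L ≤ B := by rw [hB]; exact_mod_cast hpL
    have h3 : t + p / B * q + L * ρ = t + (p + L) * ρ := by
      rw [hρ]
      ring
    have h4 : ((p : ℝ) + L) * ρ ≤ B * ρ := mul_le_mul_of_nonneg_right h2 hρ0.le
    rw [h3]
    linarith
  · rw [hqB]
    exact mul_le_mul_of_nonneg_right hBA hρ0.le

end Pool.D164
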