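import Pool.Agent.H48.T4X.Img
import Pool.Agent.H64.D1.S

/-!
# The images of the heights at the windows of a record, slopes one, `s`, `s`, `σ`

`fa_recR`: the fullness of the first place and the absences at the windows of a ladder `LadR`.
`imk_recR`: the images of the heights.
-/

set_option autoImplicit false

namespace Pool.D164

open Finset Real MvPolynomial
open Pool.Agent.H49.Ent Pool.Agent.H32.Dense Pool.STK Pool.KA Pool.KSAT Pool.K2S Pool.PB Pool.GEN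
open Pool.S6C Pool.RCD Pool.LA91
open Pool.IMN17 (FulN AbsN ImK ImKStmt)
open Pool.T4I (ImK13)
open Pool.V0R (LadR)
open Pool.PKG (RecG)
open Pool.T4X (ful_one absn_rec no_better)

section Lad

variable {m : ℕ} {S : PCl m} {c : ℕ → Fin m} {k f : ℕ} {sn : ℕ → ℝ → ℝ} {G : Set ℝ} {b o φ : ℝ}

/-- A window of the ladder behind a window. -/
theorem ladr_next (L : LadR S c k f sn G b o φ) {v : ℝ} (hv : v ∈ G) (hbv : b ≤ v)
    (hvo : v + 3 * φ ≤ o) : ∃ w ∈ G, v < w ∧ w ≤ v + 3 * φ ∧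
      ∀ l, k ≤ l → l ≤ k + f → sn l w ≤ sn l v + 2 * φ := by
  obtain ⟨φ', h1, h2, h3, h4⟩ := L.fm
  obtain ⟨w, hw, h5⟩ := h3 (v + 2 * φ') (by linarith) (by linarith)
  rw [abs_le] at h5
  refine ⟨w, hw, by linarith [h5.1], by linarith [h5.2], fun l hl hl' => ?_⟩
  exact h4 l hl hl' v hv w hw hbv (by linarith [h5.1]) (by linarith [h5.2]) (by linarith [h5.2])

/-- **The first place is full** near a window of the ladder. -/
theorem fuln_ladr (L : LadR S c k f sn G b o φ) (hk : 0 < k + f) {v κ : ℝ} (hv : v ∈ G)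
    (hbv : b ≤ v) (hvo : v + 3 * φ ≤ o) (hs : ∀ w ∈ G, v ≤ w → w ≤ v + 3 * φ → sn 0 w < v + κ)
    (hκ : 3 * φ ≤ κ) (hκ1 : v + κ < 1) : FulN S c 1 v κ := by
  obtain ⟨w, hw, h1, h2, -⟩ := ladr_next L hv hbv hvo
  obtain ⟨C₀, htm⟩ := L.tm
  obtain ⟨u₁, rd, -, hch⟩ := L.ch.ch w hw
  exact ⟨w, v + κ, h1, by linarith, le_rfl, hκ1,
    ful_one htm hch hk (hs w hw h1.le h2) hκ1⟩

/-- **No labels of the places before the last one**. -/
theorem absn_ladr (L : LadR S c k f sn G b o φ) {v μ : ℝ} (hv : v ∈ G) (hbv : b ≤ v)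
    (hvo : v + 3 * φ ≤ o) {l : ℕ} (hl : l < f) (hμ : 2 * φ < μ) :
    ∃ v₀ : ℝ, v < v₀ ∧ v₀ ≤ 1 ∧ ∀ K, Bas S (fun J F A =>
      ¬ Pool.TOP.LbR 0 F ((range (k + l)).image c) (c (k + l)) K ⌊v₀ * J⌋₊
        ⌊(sn (k + l) v + μ) * J⌋₊ A) := by
  obtain ⟨w, hw, h1, h2, h3⟩ := ladr_next L hv hbv hvo
  obtain ⟨C₀, htm⟩ := L.tm
  obtain ⟨u₁, rd, -, hch⟩ := L.ch.ch w hw
  have h4 := h3 (k + l) (by omega) (by omega)
  have ho1 := L.o1
  refine ⟨w, h1, by linarith, fun K => ?_⟩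
  have h5 := no_better htm hch (i := k + l) (Nat.zero_le _) (by omega)
    (μ := sn (k + l) v + μ - sn (k + l) w) (by linarith) K
  rw [add_sub_cancel] at h5
  exact h5

end Lad

section Rec4

variable {S : PCl 4} {al : ℝ} {g₀ : ℝ → ℝ} {P : List (Fin 4) × Fin 4 → ℝ → ℝ → ℝ} {θ : ℝ}
  {P₂ : ℕ → List (Fin 4) × Fin 4 → ℝ → ℝ → ℝ} {θ₂ Eb e₂ : ℕ → ℝ}
  {c : ℕ → Fin 4} {Pt : ℝ → ℝ → ℝ} {r : ℝ → ℝ} {h K₀ g : ℝ} {L T : ℕ → ℝ → ℝ → ℝ}
  {Sl : ℕ → ℝ} {κ : ℕ → Pool.PKG.Kg} {G : Set ℝ} {S₀ N : ℕ} {A V : ℕ → ℝ} {S₂ N' : ℕ} {V' : ℕ → ℝ}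
  {K ε q t : ℝ} {G' : Set ℝ} {b o φ v κ' : ℝ}

/-- **Fullness and absences at the windows** of the ladder of a record. -/
theorem fa_recR (R : RecG S al g₀ P θ P₂ θ₂ Eb e₂ c Pt r h K₀ g L T Sl κ G S₀ N A V S₂ N' V' K ε q t)
    (Ld : LadR S c 1 2 (fun l v => L l v v) G' b o φ) (hv : v ∈ G') (hbv : b ≤ v)
    (hvo : v + 3 * φ ≤ o) (hv0 : 0 < v) (h1 : t - K * q < v) (h2 : v + 3 * φ ≤ t + K * q)
    (hκ : 3 * φ + 2 * (ε * q) < κ') (hκ1 : v + κ' < 1) :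
    FulN S c 1 v κ' ∧ AbsN S c 1 3 (fun l => L (1 + l) v v) v κ' := by
  have hφ := Ld.φ0
  have hεq : 0 ≤ ε * q := by
    have e1 := R.l0 t (by
      rw [sub_self, abs_zero]
      have := R.t0
      have := R.t1
      nlinarith)
    exact (abs_nonneg _).trans e1
  refine ⟨?_, fun l hl μ hμ hμ1 => ?_⟩
  · refine fuln_ladr Ld (by norm_num) hv hbv hvo (fun w hw h3 h4 => ?_) (by linarith) hκ1
    have e1 := R.l0 w (abs_le.2 ⟨by linarith, by linarith⟩)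
    rw [abs_le] at e1
    linarith [e1.2]
  · rcases Nat.lt_or_ge l 2 with h3 | h3
    · exact absn_ladr Ld hv hbv hvo h3 (by linarith)
    · obtain rfl : l = 2 := by omega
      refine absn_rec R (by norm_num) hv0 h1 (by linarith) (by linarith) hμ1 ?_
      intro h4
      obtain ⟨j, hj, h5⟩ := mem_image.1 h4
      have h6 := mem_range.1 hj
      have h7 := R.inj (show j ∈ Set.Iio 4 from by
        rw [Set.mem_Iio]
        omega) (show (4 - 1 : ℕ) ∈ Set.Iio 4 from by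
        rw [Set.mem_Iio]
        norm_num) h5
      omega

/-- **The images of the heights** at the windows of the ladder of a record. -/
theorem imk_recR {C x : ℝ} (hC : ImK13 C) (hF2 : FZX 2) (hF3 : FZX 3)
    (R : RecG S al g₀ P θ P₂ θ₂ Eb e₂ c Pt r h K₀ g L T Sl κ G S₀ N A V S₂ N' V' K ε q t)
    (Ld : LadR S c 1 2 (fun l v => L l v v) G' b o φ) (hv : v ∈ G') (hbv : b ≤ v)
    (hvo : v + 3 * φ ≤ o) (hv0 : 0 < v) (h1 : t - K * q < v) (h2 : v + 3 * φ ≤ t + K * q)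
    (hκ : 3 * φ + 2 * (ε * q) < κ') (hκ1 : v + κ' < 1) (hvx : v ≤ x)
    (hs : ∀ l < 3, κ' ≤ L (1 + l) v v ∧ L (1 + l) v v ≤ x) :
    ImK S c 1 3 (fun l => L (1 + l) v v) (fun l => x - L (1 + l) v v) v x κ' (C * κ') := by
  obtain ⟨hf, ha⟩ := fa_recR R Ld hv hbv hvo hv0 h1 h2 hκ hκ1
  obtain ⟨s', d', e', K', N₀, hcl⟩ := R.clx
  have hφ := Ld.φ0
  have hεq : 0 ≤ ε * q := by
    have e1 := R.l0 t (by
      rw [sub_self, abs_zero]
      have := R.t0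
      have := R.t1
      nlinarith)
    exact (abs_nonneg _).trans e1
  exact hC hF2 hF3 (by norm_num) R.tmc R.al0 R.g₀pos hcl.actm (i₀ := 0) (by norm_num)
    (hcl.actb _ R.c0) R.inj hv0.le hvx (by linarith)
    (fun l hl => ⟨(hs l hl).1, by linarith [(hs l hl).2], by linarith⟩) hf ha

end Rec4

end Pool.D164
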