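import Pool.Agent.H33.VW.Boxf
import Pool.Agent.H64.D1.S
import Pool.Agent.H72.T4C.S

/-!
# Two alive places of one slope below a faster target: the inputs of the record

`LabG`: labels of the degree `D` at all windows, with a margin. `AfkStmt`: closed affine labels of the
target with constant slopes, from the record.
-/

set_option autoImplicit false

namespace Pool.D164

open Finset Real MvPolynomial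
open Pool.Agent.H49.Ent Pool.Agent.H32.Dense
open Pool.STK hiding pr2
open Pool.KA Pool.KSAT Pool.K2S Pool.PB Pool.S6C
open Pool.GEN Pool.CHT Pool.LA91 Pool.RCD Pool.V0F
open Pool.CDX (AffL)
open Pool.VW33 (FBox)
open Pool.PKG (Kg RecG PropG)
open Pool.T4C72 (SubW)
open Pool.V0B19 (grS)

/-- **Labels of the degree `D`** at all windows between `b` and `o`, with a margin `Λu`. -/
def LabG {m : ℕ} (S : PCl m) (c : ℕ → Fin m) (r D : ℕ) (sn : ℕ → ℝ → ℝ) (G : Set ℝ)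
    (b o Λu : ℝ) : Prop :=
  ∀ v ∈ G, b ≤ v → v ≤ o → ∃ (E rd : ℕ → ℝ) (ρ : ℝ), ρ < 1 ∧
    (∀ l < r, 0 ≤ E l ∧ sn l v + E l + Λu ≤ 1 ∧ 0 ≤ rd l ∧ rd l ≤ ρ) ∧ ∀ e : ℝ, 0 < e →
    Bas S (fun _ F A => ∃ (V : Type) (z : PtT F → V) (z' : LnT F → V)
      (g : V → ℕ → MvPolynomial (Option (Fin m)) ℝ),
      LbE F c r D E e v rd (fun l => sn l v) A z z' g)

/-- **The closed affine labels of the target** with constant slopes, from the record and a property of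
the windows, in a subclass. Order of the constants: `D` (labels of the class), `S₀`, `K₀`, `Λ`, `e` (the
range and the error of the labels, in units `q`); `M₁` (divides `M₀`), the pairs of windows `A₁`, `V₁` of
the record; `S₂`; `Λ'`, `e'` (the room and the errors of the record); the grid `M₀`, `cb`, `co`; more
windows `Vv` of the record; `K`, `ε`. `Sa`: the class at the window `g`, `S`: any subclass. -/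
def AfkStmt (h : ℝ) (Sl : ℕ → ℝ) (κ : ℕ → Kg) {ι : Type} (Q : PropG 4 ι) : Prop :=
  ∀ (D S₀ : ℕ) (K₀ Λ e : ℝ), 1 ≤ D → 1 ≤ S₀ → 0 < K₀ → 1 ≤ Λ → 0 < e →
  ∃ (M₁ : ℕ) (K₁ : ℝ) (N₁ : ℕ) (A₁ V₁ : ℕ → ℝ), 1 ≤ M₁ ∧ 1 ≤ K₁ ∧
    (∀ j < N₁, -K₁ ≤ V₁ j ∧ V₁ j ≤ A₁ j ∧ A₁ j ≤ K₁) ∧
  ∀ S₂ : ℕ, S₀ ≤ S₂ → ∃ (Λ' e' : ℝ), 1 ≤ Λ' ∧ 0 < e' ∧
  ∀ (M₀ cb co : ℕ), 1 ≤ M₀ → M₁ ∣ M₀ → Λ' ≤ cb → Λ' + K₁ ≤ co →
  ∃ (K₂ : ℝ) (Nv : ℕ) (Vv : ℕ → ℝ), (∀ j < Nv, -K₂ ≤ Vv j ∧ Vv j ≤ K₂) ∧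
  ∀ K : ℝ, K₂ ≤ K → ∃ ε₀ : ℝ, 0 < ε₀ ∧ ∀ ε : ℝ, 0 < ε → ε ≤ ε₀ →
  ∀ (Sa : PCl 4) (P : List (Fin 4) × Fin 4 → ℝ → ℝ → ℝ)
    (θ : ℝ) (P₂ : ℕ → List (Fin 4) × Fin 4 → ℝ → ℝ → ℝ) (θ₂ Eb e₂ : ℕ → ℝ)
    (c : ℕ → Fin 4) (Pt : ℝ → ℝ → ℝ) (r : ℝ → ℝ) (L Tb : ℕ → ℝ → ℝ → ℝ)
    (G : Set ℝ) (g : ℝ), IsClosed G → g ∈ G →
    (∀ l < 4, HasDerivAt (fun x => L l x x) (Sl l) g) →
    ∃ (p : ℕ → ι) (M : ℕ) (B₀ B₁ : ℕ → ℝ), (∀ j < M, B₀ j < B₁ j) ∧ ∀ k₀ : ℕ → ℕ,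
    (∀ j < M, Q (p j) (k₀ j) Sa P θ c Pt r L Tb κ G g) → ∃ q₁ : ℝ, 0 < q₁ ∧
  ∀ {S : PCl 4} {al' : ℝ} {g₀ : ℝ → ℝ} {N : ℕ} {A V : ℕ → ℝ} {N' : ℕ}
    {V' : ℕ → ℝ} {q t : ℝ} {x : ℕ → ℝ} {sp : ℕ → ℝ → ℝ} {φ' : ℝ} {lam : ℝ → ℝ}
    {bl pl : ℕ → ℝ},
    (∀ (τ : ℝ) (J : ℕ) (F : Fam 4 J) (A : F.Ω → Prop), S.St τ J F A → Sa.St τ J F A) → q < q₁ →
    (∀ j < M, x j ∈ G ∧ t + B₀ j * q ≤ x j ∧ x j ≤ t + B₁ j * q ∧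
      Q (p j) (k₀ j) S P θ c Pt r L Tb κ G (x j)) →
    RecG S al' g₀ P θ P₂ θ₂ Eb e₂ c Pt r h K₀ g L Tb Sl κ G S₀ N A V S₂ N' V' K ε q t →
    SubW N₁ A₁ V₁ N A V → (∀ j < (cb + co) * M₀ + 1, ∃ j' < N', V' j' = chV M₀ cb j) →
    (∀ j < Nv, ∃ j' < N', V' j' = Vv j) → (cb : ℝ) + co + Λ' ≤ K → φ' ≤ e' * q → q / M₀ ≤ φ' →
    FBox S c 1 2 (fun l v => L l v v) sp (grS M₀ cb co t q) (Sl 1) (Sl 3) h (t - cb * q)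
      (t + co * q) t q Λ' φ' e' lam →
    LabG S c 4 D (fun l v => L l v v) (grS M₀ cb co t q) (t - cb * q) (t + co * q) (Λ' * q) →
    AffD S c (fun l v => L l v v) t (e' * q) bl pl →
    (∀ v ∈ grS M₀ cb co t q,
      ∃ bl' pl' : ℕ → ℝ, AffD S c (fun l v => L l v v) v (e' * q) bl' pl') →
    ∃ S' : PCl 4, S'.Ne ∧ (∀ (τ : ℝ) (J : ℕ) (F : Fam 4 J) (A : F.Ω → Prop),
      S'.St τ J F A → S.St τ J F A) ∧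
    ∀ (n : ℕ) (vs : ℕ → ℝ), vs 0 = t →
      (∀ k ≤ n, vs k ∈ grS M₀ cb co t q ∧ t ≤ vs k ∧ vs k ≤ t + Λ * q) →
      AfK S' c n vs (fun k => L 3 (vs k) (vs k) - e * q)

end Pool.D164
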